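import Pool.Agent.MP_959d67_pr.H33.Concrete

set_option autoImplicit false

namespace Pool.Agent.Results.MP_959d67_pr.NotMonotone

open Pool.Agent.MP_959d67_pr.H33

/-- Monotonicity in the freezing rate fails: a finite simple graph, rates `0 < α < β` and an
increasing event that is more likely under the larger freezing rate. -/
theorem result : ∃ (n : ℕ) (G : SimpleGraph (Fin n)) (α β : ℝ) (A : Set (Finset (Sym2 (Fin n)))),
    0 < α ∧ α < β ∧ IsUpperSet A ∧ finalProb G α A < finalProb G β A := by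
  obtain ⟨h, hh⟩ : ∃ h : ℕ, (h : ℝ) = 500000 := ⟨500000, by norm_num⟩
  obtain ⟨q, hq⟩ : ∃ q : ℕ, (q : ℝ) = 500000000 := ⟨500000000, by norm_num⟩
  have hq0 : 0 < q * 20 := by
    have : (0 : ℝ) < q := by rw [hq]; norm_num
    have : 0 < q := by exact_mod_cast this
    omega
  obtain ⟨K1, K2, p, lev, hS, h1, h2⟩ := exists_setup h (q * 20) hq0
  have hhh : ((h * h : ℕ) : ℝ) = 250000000000 := by push_cast; rw [hh]; norm_num
  refine ⟨_, GG h (q * 20), 1 / 1000000000000, 2 / 1000000000, evA _ K1 K2, by norm_num,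
    by norm_num, evA_upper, final hS rfl hq ?_ ?_ ?_⟩
  · rw [Fintype.card_fin]
    push_cast
    rw [hh, hq]
    norm_num
  · rw [← hhh]; exact_mod_cast h1
  · rw [← hhh]; exact_mod_cast h2

end Pool.Agent.Results.MP_959d67_pr.NotMonotone
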